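import Pool.Agent.H715.TW.Stm

/-!
# Project TW (helper715), task T2: norms from the cubic field of conductor 7
-/

namespace Pool.Agent.H317.TW

open Pool.Agent.H715.TW
open Pool.Agent.H528R2 (Vge)

/-- `x` is a value of the norm form -/
def Nm (x : ℚ) : Prop := ∃ u v w : ℚ, x = Nf (-1) u v w

/-- the norm form over a commutative ring -/
def NZ {R : Type*} [CommRing R] (u v w : R) : R :=
  u ^ 3 - u ^ 2 * v + 5 * u ^ 2 * w - 2 * u * v ^ 2 - u * v * w + 6 * u * w ^ 2
    + v ^ 3 - v ^ 2 * w - 2 * v * w ^ 2 + w ^ 3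

lemma Nf_eq (u v w : ℚ) : Nf (-1) u v w = NZ u v w := by
  unfold Nf NZ; ring

lemma Nm.mul {x y : ℚ} (hx : Nm x) (hy : Nm y) : Nm (x * y) := by
  obtain ⟨u, v, w, rfl⟩ := hx
  obtain ⟨u', v', w', rfl⟩ := hy
  refine ⟨u * u' + (v * w' + w * v') - w * w',
    u * v' + v * u' + 2 * (v * w' + w * v') - w * w',
    u * w' + v * v' + w * u' - (v * w' + w * v') + 3 * (w * w'), ?_⟩
  simp only [Nf_eq]
  unfold NZ
  ring

lemma Nm.cube (r : ℚ) : Nm (r ^ 3) := ⟨r, 0, 0, by simp only [Nf_eq]; unfold NZ; ring⟩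

lemma Nm.one : Nm 1 := by simpa using Nm.cube 1

lemma Nm.negOne : Nm (-1) := by
  have := Nm.cube (-1)
  norm_num at this
  exact this

lemma Nm.neg {x : ℚ} (hx : Nm x) : Nm (-x) := by
  have := Nm.negOne.mul hx
  simpa using this

lemma Nm.pow {x : ℚ} (hx : Nm x) (n : ℕ) : Nm (x ^ n) := by
  induction n with
  | zero => simpa using Nm.one
  | succ n ih => rw [pow_succ]; exact ih.mul hx

lemma Nm.inv {x : ℚ} (hx : Nm x) (h0 : x ≠ 0) : Nm x⁻¹ := by
  have h : x⁻¹ = x ^ 2 * (x⁻¹) ^ 3 := by field_simp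
  rw [h]
  exact (hx.pow 2).mul (Nm.cube _)

lemma Nm.seven : Nm 7 := ⟨2, -1, 0, by simp only [Nf_eq]; unfold NZ; norm_num⟩

lemma Nm.thirteen : Nm 13 := ⟨1, 0, 1, by simp only [Nf_eq]; unfold NZ; norm_num⟩

/-! ### the norm form is anisotropic -/

lemma NZ_two : ∀ u v w : ZMod 2, NZ u v w = 0 → u = 0 ∧ v = 0 ∧ w = 0 := by
  unfold NZ; decide

lemma NZ_cast {R : Type*} [CommRing R] (u v w : ℤ) :
    ((NZ u v w : ℤ) : R) = NZ (u : R) (v : R) (w : R) := by
  unfold NZ; push_cast; ring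

lemma NZ_aniso : ∀ (n : ℕ) (u v w : ℤ), u.natAbs + v.natAbs + w.natAbs ≤ n → NZ u v w = 0 →
    u = 0 ∧ v = 0 ∧ w = 0 := by
  intro n
  induction n with
  | zero =>
    intro u v w hn _
    omega
  | succ n ih =>
    intro u v w hn h
    have h2 : NZ (u : ZMod 2) (v : ZMod 2) (w : ZMod 2) = 0 := by
      rw [← NZ_cast, h]; simp
    obtain ⟨hu, hv, hw⟩ := NZ_two _ _ _ h2
    rw [ZMod.intCast_zmod_eq_zero_iff_dvd] at hu hv hw
    obtain ⟨u', rfl⟩ := hu
    obtain ⟨v', rfl⟩ := hv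
    obtain ⟨w', rfl⟩ := hw
    have h' : NZ u' v' w' = 0 := by
      have : (8 : ℤ) * NZ u' v' w' = 0 := by
        rw [← h]; unfold NZ; push_cast; ring
      omega
    by_cases hz : u' = 0 ∧ v' = 0 ∧ w' = 0
    · obtain ⟨rfl, rfl, rfl⟩ := hz
      simp
    · have := ih u' v' w' (by push_cast at hn; omega) h'
      exact absurd this hz

/-! ### a root modulo `p` -/

lemma exists_root_aux {p : ℕ} [Fact p.Prime] (hp : p % 7 = 1 ∨ p % 7 = 6) (K : Type)
    [Field K] [Fintype K] [Algebra (ZMod p) K] (hcard : Fintype.card K = p ^ 2) :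
    ∃ c : ZMod p, c ^ 3 + c ^ 2 - 2 * c - 1 = 0 := by
  classical
  have hp0 : p.Prime := Fact.out
  have hch : CharP K p := charP_of_injective_algebraMap (algebraMap (ZMod p) K).injective p
  -- an element of order 7
  have hdvd : 7 ∣ Fintype.card Kˣ := by
    rw [Fintype.card_units, hcard]
    have h1 : p ^ 2 % 7 = 1 := by
      rcases hp with h | h <;> simp [Nat.pow_mod, h]
    have : 1 ≤ p ^ 2 := Nat.one_le_pow _ _ hp0.pos
    omega
  have h7 : Fact (Nat.Prime 7) := ⟨by norm_num⟩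
  obtain ⟨z, hz⟩ := exists_prime_orderOf_dvd_card 7 hdvd
  have hz7 : z ^ 7 = 1 := by rw [← hz]; exact pow_orderOf_eq_one z
  have hz1 : z ≠ 1 := by
    rintro rfl
    rw [orderOf_one] at hz
    norm_num at hz
  set ζ : K := (z : K) with hζ
  have hζ0 : ζ ≠ 0 := z.ne_zero
  have hζ7 : ζ ^ 7 = 1 := by
    have := congrArg (fun t : Kˣ => (t : K)) hz7
    simpa using this
  have hζ1 : ζ ≠ 1 := by
    intro h
    exact hz1 (Units.ext (by rw [← hζ, h]; rfl))
  have hsum : 1 + ζ + ζ ^ 2 + ζ ^ 3 + ζ ^ 4 + ζ ^ 5 + ζ ^ 6 = 0 := by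
    have h : (ζ - 1) * (1 + ζ + ζ ^ 2 + ζ ^ 3 + ζ ^ 4 + ζ ^ 5 + ζ ^ 6) = 0 := by
      linear_combination hζ7
    rcases mul_eq_zero.mp h with h | h
    · exact absurd (sub_eq_zero.mp h) hζ1
    · exact h
  set c : K := ζ + ζ⁻¹ with hc
  have hroot : c ^ 3 + c ^ 2 - 2 * c - 1 = 0 := by
    have h : ζ ^ 3 * (c ^ 3 + c ^ 2 - 2 * c - 1) = 0 := by
      rw [← hsum, hc]
      field_simp
      ring
    rcases mul_eq_zero.mp h with h | h
    · exact absurd h (pow_ne_zero _ hζ0)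
    · exact h
  have hfrob : c ^ p = c := by
    have h1 : c ^ p = ζ ^ p + (ζ⁻¹) ^ p := by rw [hc]; exact add_pow_char ζ ζ⁻¹ p
    have hdiv : p = 7 * (p / 7) + p % 7 := (Nat.div_add_mod p 7).symm
    have h2 : ζ ^ p = ζ ^ (p % 7) := by
      conv_lhs => rw [hdiv]
      rw [pow_add, pow_mul, hζ7, one_pow, one_mul]
    have h6 : ζ ^ 6 = ζ⁻¹ := by
      field_simp
      linear_combination hζ7
    rw [h1, inv_pow, h2]
    rcases hp with h | h
    · rw [h, pow_one]
    · rw [h, h6, inv_inv, hc, add_comm]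
  -- c lies in the prime field
  have hmem : c ∈ (⊥ : Subfield K) := (Subfield.mem_bot_iff_pow_eq_self K p).mpr hfrob
  rw [← ZMod.fieldRange_castHom_eq_bot p] at hmem
  obtain ⟨a, ha⟩ := hmem
  refine ⟨a, ?_⟩
  apply (ZMod.castHom (dvd_refl p) K).injective
  rw [← ha] at hroot
  rw [map_sub, map_sub, map_add, map_pow, map_pow, map_mul, map_one, map_ofNat, map_zero]
  exact hroot

lemma exists_root {p : ℕ} [Fact p.Prime] (hp : p % 7 = 1 ∨ p % 7 = 6) :
    ∃ c : ZMod p, c ^ 3 + c ^ 2 - 2 * c - 1 = 0 := by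
  let inst : Fintype (GaloisField p 2) := Fintype.ofFinite _
  refine exists_root_aux hp (GaloisField p 2) ?_
  rw [← Nat.card_eq_fintype_card]
  exact GaloisField.card p 2 (by norm_num)

/-! ### small multiples of `p` -/

lemma NZ_root {R : Type*} [CommRing R] {u v w c : R} (hc : c ^ 3 + c ^ 2 - 2 * c - 1 = 0)
    (h : u + v * c + w * c ^ 2 = 0) : NZ u v w = 0 := by
  unfold NZ
  linear_combination
    (((u + 2 * w) * (u - v + 3 * w) - (2 * v - w) * (v - w))
      + ((2 * v - w) * w - v * (u - v + 3 * w)) * c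
      + (v * (v - w) - (u + 2 * w) * w) * c ^ 2) * h
    - (w * (v * (v - w) - (u + 2 * w) * w) * c
      + (v * (v * (v - w) - (u + 2 * w) * w) + w * ((2 * v - w) * w - v * (u - v + 3 * w))
        - w * (v * (v - w) - (u + 2 * w) * w))) * hc

lemma NZ_bound {u v w B : ℤ} (hu : |u| ≤ B) (hv : |v| ≤ B) (hw : |w| ≤ B) :
    |NZ u v w| ≤ 21 * B ^ 3 := by
  have hB : 0 ≤ B := le_trans (abs_nonneg u) hu
  have m : ∀ x y z : ℤ, |x| ≤ B → |y| ≤ B → |z| ≤ B → |x * y * z| ≤ B ^ 3 := by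
    intro x y z hx hy hz
    rw [abs_mul, abs_mul]
    calc |x| * |y| * |z| ≤ B * B * B := by gcongr
      _ = B ^ 3 := by ring
  have h1 := abs_le.mp (m u u u hu hu hu)
  have h2 := abs_le.mp (m u u v hu hu hv)
  have h3 := abs_le.mp (m u u w hu hu hw)
  have h4 := abs_le.mp (m u v v hu hv hv)
  have h5 := abs_le.mp (m u v w hu hv hw)
  have h6 := abs_le.mp (m u w w hu hw hw)
  have h7 := abs_le.mp (m v v v hv hv hv)
  have h8 := abs_le.mp (m v v w hv hv hw)
  have h9 := abs_le.mp (m v w w hv hw hw)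
  have h10 := abs_le.mp (m w w w hw hw hw)
  have e : NZ u v w = u * u * u - u * u * v + 5 * (u * u * w) - 2 * (u * v * v) - u * v * w
      + 6 * (u * w * w) + v * v * v - v * v * w - 2 * (v * w * w) + w * w * w := by
    unfold NZ; ring
  rw [e, abs_le]
  constructor <;> linarith

lemma small_vector {p : ℕ} [Fact p.Prime] (c : ZMod p) :
    ∃ (B : ℕ) (u v w : ℤ), B ^ 3 ≤ p ∧ |u| ≤ B ∧ |v| ≤ B ∧ |w| ≤ B ∧ ¬ (u = 0 ∧ v = 0 ∧ w = 0) ∧
      (u : ZMod p) + v * c + w * c ^ 2 = 0 := by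
  classical
  obtain ⟨B, hB1, hB2⟩ : ∃ B : ℕ, B ^ 3 ≤ p ∧ p < (B + 1) ^ 3 := by
    refine ⟨Nat.findGreatest (fun B => B ^ 3 ≤ p) p, ?_, ?_⟩
    · exact Nat.findGreatest_spec (P := fun B => B ^ 3 ≤ p) (Nat.zero_le p) (by simp)
    · by_contra h
      push Not at h
      have h1 : Nat.findGreatest (fun B => B ^ 3 ≤ p) p + 1 ≤ p := by
        refine le_trans ?_ h
        exact Nat.le_self_pow (by norm_num) _
      have h2 := Nat.le_findGreatest (P := fun B => B ^ 3 ≤ p) h1 h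
      omega
  have hcard : Fintype.card (ZMod p) < Fintype.card (Fin (B + 1) × Fin (B + 1) × Fin (B + 1)) := by
    rw [ZMod.card, Fintype.card_prod, Fintype.card_prod, Fintype.card_fin]
    calc p < (B + 1) ^ 3 := hB2
      _ = (B + 1) * ((B + 1) * (B + 1)) := by ring
  obtain ⟨x, y, hxy, he⟩ := Fintype.exists_ne_map_eq_of_card_lt
    (fun t : Fin (B + 1) × Fin (B + 1) × Fin (B + 1) =>
      ((t.1 : ℕ) : ZMod p) + ((t.2.1 : ℕ) : ZMod p) * c + ((t.2.2 : ℕ) : ZMod p) * c ^ 2) hcard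
  refine ⟨B, (x.1 : ℕ) - (y.1 : ℕ), (x.2.1 : ℕ) - (y.2.1 : ℕ), (x.2.2 : ℕ) - (y.2.2 : ℕ), hB1,
    ?_, ?_, ?_, ?_, ?_⟩
  · have h1 := x.1.2
    have h2 := y.1.2
    rw [abs_le]; constructor <;> omega
  · have h1 := x.2.1.2
    have h2 := y.2.1.2
    rw [abs_le]; constructor <;> omega
  · have h1 := x.2.2.2
    have h2 := y.2.2.2
    rw [abs_le]; constructor <;> omega
  · rintro ⟨h1, h2, h3⟩
    apply hxy
    refine Prod.ext (Fin.ext (by omega)) (Prod.ext (Fin.ext (by omega)) (Fin.ext (by omega)))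
  · push_cast
    linear_combination he

/-! ### valuations -/

lemma val_not_dvd {q k a b : ℕ} (hq : q.Prime) (hk : k ≠ 0) (h1 : q ^ a ∣ k) (h2 : ¬ q ^ b ∣ k)
    (h3 : ∀ j : ℕ, a ≤ j → j < b → ¬ 3 ∣ j) (h : (3 : ℤ) ∣ padicValRat q (k : ℚ)) : False := by
  haveI : Fact q.Prime := ⟨hq⟩
  rw [padicValRat.of_nat] at h
  have h' : 3 ∣ padicValNat q k := by exact_mod_cast h
  refine h3 _ ?_ ?_ h'
  · exact (padicValNat_dvd_iff_le hk).mp h1
  · by_contra hc
    exact h2 ((padicValNat_dvd_iff_le hk).mpr (not_lt.mp hc))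

lemma LInert2 : LInert 2 := ⟨by norm_num, by norm_num⟩
lemma LInert3 : LInert 3 := ⟨by norm_num, by norm_num⟩
lemma LInert5 : LInert 5 := ⟨by norm_num, by norm_num⟩
lemma LInert11 : LInert 11 := ⟨by norm_num, by norm_num⟩
lemma LInert17 : LInert 17 := ⟨by norm_num, by norm_num⟩
lemma LInert19 : LInert 19 := ⟨by norm_num, by norm_num⟩

lemma no_j {a b : ℕ} (h : a % 3 ≠ 0) (h' : b ≤ a + 2) (h'' : a % 3 = 1 ∨ b ≤ a + 1) :
    ∀ j : ℕ, a ≤ j → j < b → ¬ 3 ∣ j := by
  intro j h1 h2 h3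
  omega

lemma small_cases {k : ℕ} (hk0 : k ≠ 0) (hk : k ≤ 21)
    (h : ∀ q : ℕ, LInert q → (3 : ℤ) ∣ padicValRat q (k : ℚ)) :
    k = 1 ∨ k = 7 ∨ k = 8 ∨ k = 13 := by
  have key : ∀ q a b : ℕ, LInert q → q ^ a ∣ k → ¬ q ^ b ∣ k → a % 3 ≠ 0 → b ≤ a + 2 →
      (a % 3 = 1 ∨ b ≤ a + 1) → False := fun q a b hq h1 h2 h3 h4 h5 =>
    val_not_dvd hq.1 hk0 h1 h2 (no_j h3 h4 h5) (h q hq)
  by_contra hc
  push Not at hc
  obtain ⟨c1, c2, c3, c4⟩ := hc
  have k2 := key 2 1 3 LInert2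
  have k24 := key 2 4 6 LInert2
  have k3 := key 3 1 3 LInert3
  have k5 := key 5 1 3 LInert5
  have k11 := key 11 1 3 LInert11
  have k17 := key 17 1 3 LInert17
  have k19 := key 19 1 3 LInert19
  clear key h
  interval_cases k <;> first
    | exact hk0 rfl
    | exact c1 rfl
    | exact c2 rfl
    | exact c3 rfl
    | exact c4 rfl
    | exact k2 (by decide) (by decide) (by decide) (by decide) (by decide)
    | exact k24 (by decide) (by decide) (by decide) (by decide) (by decide)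
    | exact k3 (by decide) (by decide) (by decide) (by decide) (by decide)
    | exact k5 (by decide) (by decide) (by decide) (by decide) (by decide)
    | exact k11 (by decide) (by decide) (by decide) (by decide) (by decide)
    | exact k17 (by decide) (by decide) (by decide) (by decide) (by decide)
    | exact k19 (by decide) (by decide) (by decide) (by decide) (by decide)

lemma Nm.small {k : ℕ} (hk : k = 1 ∨ k = 7 ∨ k = 8 ∨ k = 13) : Nm (k : ℚ) := by
  rcases hk with rfl | rfl | rfl | rfl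
  · simpa using Nm.one
  · exact_mod_cast Nm.seven
  · have := Nm.cube 2
    norm_num at this
    exact_mod_cast this
  · exact_mod_cast Nm.thirteen

lemma Nm.natAbs {z : ℤ} (h : Nm (z.natAbs : ℚ)) : Nm (z : ℚ) := by
  rcases Int.natAbs_eq z with hz | hz
  · have e : (z : ℚ) = (z.natAbs : ℚ) := by
      have := congrArg (fun t : ℤ => (t : ℚ)) hz
      simpa only [Int.cast_natCast] using this
    rw [e]; exact h
  · have e : (z : ℚ) = -(z.natAbs : ℚ) := by
      have := congrArg (fun t : ℤ => (t : ℚ)) hz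
      simpa only [Int.cast_natCast, Int.cast_neg] using this
    rw [e]; exact h.neg

/-! ### primes -/

lemma prime_Nm (hT1 : S_T1) {p : ℕ} (hp : p.Prime) (h : p % 7 = 1 ∨ p % 7 = 6) : Nm (p : ℚ) := by
  haveI : Fact p.Prime := ⟨hp⟩
  obtain ⟨c, hc⟩ := exists_root h
  obtain ⟨B, u, v, w, hB, hu, hv, hw, h0, hrel⟩ := small_vector c
  have hN0 : NZ u v w ≠ 0 := fun hz => h0 (NZ_aniso _ u v w le_rfl hz)
  have hdvd : (p : ℤ) ∣ NZ u v w := by
    rw [← ZMod.intCast_zmod_eq_zero_iff_dvd, NZ_cast]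
    exact NZ_root hc hrel
  obtain ⟨k, hk⟩ := hdvd
  have hk0 : k ≠ 0 := by
    rintro rfl
    exact hN0 (by simpa using hk)
  have hkle : k.natAbs ≤ 21 := by
    have h1 := NZ_bound hu hv hw
    rw [hk, abs_mul] at h1
    have h2 : ((B : ℤ)) ^ 3 ≤ p := by exact_mod_cast hB
    have h3 : |(p : ℤ)| = p := abs_of_nonneg (by positivity)
    rw [h3] at h1
    have h4 : (p : ℤ) * |k| ≤ p * 21 := by linarith
    have hp' : (0 : ℤ) < p := by exact_mod_cast hp.pos
    have h5 : |k| ≤ 21 := le_of_mul_le_mul_left h4 hp'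
    rw [Int.abs_eq_natAbs] at h5
    exact_mod_cast h5
  have hNm : Nm ((NZ u v w : ℤ) : ℚ) := ⟨u, v, w, by rw [Nf_eq, NZ_cast]⟩
  have hval : ∀ q : ℕ, LInert q → (3 : ℤ) ∣ padicValRat q ((k.natAbs : ℕ) : ℚ) := by
    intro q hq
    haveI : Fact q.Prime := ⟨hq.1⟩
    have h1 : Nf (-1) (u : ℚ) v w = ((NZ u v w : ℤ) : ℚ) := by rw [Nf_eq, NZ_cast]
    have h2 := hT1 q (-1) u v w hq (Or.inl (by norm_num)) (by rw [h1]; exact_mod_cast hN0)
    rw [h1, hk] at h2
    push_cast at h2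
    rw [padicValRat.mul (by exact_mod_cast hp.ne_zero) (by exact_mod_cast hk0)] at h2
    have hqp : q ≠ p := by
      rintro rfl
      rcases hq.2 with h' | h' | h' | h' <;> omega
    have h3 : padicValRat q (p : ℚ) = 0 := by
      rw [padicValRat.of_nat, padicValNat_primes hqp]
      rfl
    rw [h3, zero_add] at h2
    have h4 : padicValRat q ((k.natAbs : ℕ) : ℚ) = padicValRat q (k : ℚ) := by
      rw [padicValRat.of_nat, padicValRat.of_int, padicValInt]
    rw [h4]
    exact h2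
  have hkN : Nm (k : ℚ) := Nm.natAbs (Nm.small (small_cases (by omega) hkle hval))
  have : (p : ℚ) = ((NZ u v w : ℤ) : ℚ) * (k : ℚ)⁻¹ := by
    rw [hk]
    push_cast
    have : (k : ℚ) ≠ 0 := by exact_mod_cast hk0
    field_simp
  rw [this]
  exact hNm.mul (hkN.inv (by exact_mod_cast hk0))

/-! ### integers -/

lemma nat_Nm (hT1 : S_T1) : ∀ n : ℕ, n ≠ 0 →
    (∀ q : ℕ, LInert q → 3 ∣ padicValNat q n) → Nm (n : ℚ) := by
  intro n
  induction n using Nat.strong_induction_on with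
  | _ n ih =>
    intro hn0 h
    by_cases hn1 : n = 1
    · subst hn1; simpa using Nm.one
    have hp : n.minFac.Prime := Nat.minFac_prime hn1
    set p := n.minFac with hpdef
    haveI : Fact p.Prime := ⟨hp⟩
    have hpn : p ∣ n := Nat.minFac_dvd n
    by_cases hin : LInert p
    · have h3 := h p hin
      have h1 : 1 ≤ padicValNat p n := one_le_padicValNat_of_dvd hn0 hpn
      have h3' : p ^ 3 ∣ n := (padicValNat_dvd_iff_le hn0).mpr (by omega)
      obtain ⟨m, hm⟩ := h3'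
      have hm0 : m ≠ 0 := by rintro rfl; simp at hm; exact hn0 hm
      have hlt : m < n := by
        rw [hm]
        have : 1 < p ^ 3 := Nat.one_lt_pow (by norm_num) hp.one_lt
        nlinarith [Nat.pos_of_ne_zero hm0]
      have hmN : Nm (m : ℚ) := by
        refine ih m hlt hm0 fun q hq => ?_
        haveI : Fact q.Prime := ⟨hq.1⟩
        have h4 := h q hq
        rw [hm, padicValNat.mul (pow_ne_zero _ hp.ne_zero) hm0,
          padicValNat.pow] at h4
        omega
      rw [hm]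
      push_cast
      exact (Nm.cube _).mul hmN
    · obtain ⟨m, hm⟩ := hpn
      have hm0 : m ≠ 0 := by rintro rfl; simp at hm; exact hn0 hm
      have hlt : m < n := by
        rw [hm]
        nlinarith [Nat.pos_of_ne_zero hm0, hp.one_lt]
      have hmN : Nm (m : ℚ) := by
        refine ih m hlt hm0 fun q hq => ?_
        haveI : Fact q.Prime := ⟨hq.1⟩
        have h4 := h q hq
        have hqp : q ≠ p := fun e => hin (e ▸ hq)
        rw [hm, padicValNat.mul hp.ne_zero hm0, padicValNat_primes hqp, zero_add] at h4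
        exact h4
      have hpN : Nm (p : ℚ) := by
        have hcase : p % 7 = 0 ∨ p % 7 = 1 ∨ p % 7 = 6 := by
          by_contra hc
          exact hin ⟨hp, by omega⟩
        rcases hcase with h7 | h7
        · have : p = 7 := by
            have := (Nat.prime_dvd_prime_iff_eq (by norm_num : Nat.Prime 7) hp).mp
              (Nat.dvd_of_mod_eq_zero h7)
            exact this.symm
          rw [this]
          exact_mod_cast Nm.seven
        · exact prime_Nm hT1 hp h7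
      rw [hm]
      push_cast
      exact hpN.mul hmN

theorem t2 (h : S_T1) : S_T2 := by
  intro x hx hval
  show Nm x
  have hnum : x.num ≠ 0 := Rat.num_ne_zero.mpr hx
  have hden : x.den ≠ 0 := x.den_ne_zero
  have hn : Nm ((x.num.natAbs * x.den ^ 2 : ℕ) : ℚ) := by
    refine nat_Nm h _ (mul_ne_zero (by omega) (pow_ne_zero _ hden)) fun q hq => ?_
    haveI : Fact q.Prime := ⟨hq.1⟩
    have h1 := hval q hq
    have h2 : padicValRat q x = (padicValNat q x.num.natAbs : ℤ) - padicValNat q x.den := by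
      rw [padicValRat_def, padicValInt]
    rw [h2] at h1
    rw [padicValNat.mul (by omega) (pow_ne_zero _ hden), padicValNat.pow]
    omega
  have hz : Nm ((x.num * (x.den : ℤ) ^ 2 : ℤ) : ℚ) := by
    apply Nm.natAbs
    have : (x.num * (x.den : ℤ) ^ 2).natAbs = x.num.natAbs * x.den ^ 2 := by
      rw [Int.natAbs_mul, Int.natAbs_pow, Int.natAbs_natCast]
    rw [this]
    exact hn
  have hx' : x = ((x.num * (x.den : ℤ) ^ 2 : ℤ) : ℚ) * ((x.den : ℚ)⁻¹) ^ 3 := by
    push_cast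
    have hd : (x.den : ℚ) ≠ 0 := by exact_mod_cast hden
    have e := Rat.num_div_den x
    field_simp
    rw [eq_comm]
    have e2 : (x.num : ℚ) = x * x.den := by
      rw [eq_comm, Rat.mul_den_eq_num]
    linear_combination e2
  rw [hx']
  exact hz.mul (Nm.cube _)

end Pool.Agent.H317.TW
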